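import Pool.Agent.Y440.K.Stm

/-! Symmetry and positivity of the kernel (statement PSD). -/

set_option autoImplicit false

open Finset

namespace Pool.Agent.Y779.Q440

/-- the statement for abstract functions -/
theorem gen (dd qx : ℕ → ℕ → ℕ) (dm ofs : ℕ → ℕ) (dw : ℕ → ℕ → ℕ) (el : ℕ → ℕ → ℕ → ℕ) (cof : ℤ)
    (hv : ∀ t < 14, ∀ f < 1024, ∀ g < 1024, (dd (1024 * t + f) (1024 * t + g) : ℤ) =
      cof + ∑ k ∈ range (dm t), (dw t k : ℤ) * ((el t f k : ℤ) - ofs t) * ((el t g k : ℤ) - ofs t))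
    (hv2 : (dd 14336 14336 : ℤ) = cof)
    (hi : ∀ c < 1024, (∀ f < 1024, qx c f = 14336) ∨
      ∃ t < 14, ∀ f < 1024, 1024 * t ≤ qx c f ∧ qx c f < 1024 * t + 1024) :
    ∀ c < 1024, ∃ (n : ℕ) (w : ℕ → ℕ) (B : ℕ → ℕ → ℤ), ∀ f < 1024, ∀ g < 1024,
      (dd (qx c f) (qx c g) : ℤ) - cof = ∑ k ∈ range n, (w k : ℤ) * B k f * B k g := by
  intro c hc
  rcases hi c hc with h | ⟨t, ht, h⟩
  · refine ⟨0, fun _ => 0, fun _ _ => 0, ?_⟩
    intro f hf g hg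
    rw [h f hf, h g hg, hv2, sub_self, range_zero, sum_empty]
  · refine ⟨dm t, dw t, fun k f => (el t (qx c f - 1024 * t) k : ℤ) - ofs t, ?_⟩
    intro f hf g hg
    obtain ⟨h1, h2⟩ := h f hf
    obtain ⟨h3, h4⟩ := h g hg
    have e1 : qx c f = 1024 * t + (qx c f - 1024 * t) := by omega
    have e2 : qx c g = 1024 * t + (qx c g - 1024 * t) := by omega
    have h5 := hv t ht (qx c f - 1024 * t) (by omega) (qx c g - 1024 * t) (by omega)
    rw [← e1, ← e2] at h5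
    rw [h5, add_sub_cancel_left]

theorem psd_of (K : ℕ → ℕ → ℕ → ℤ)
    (h : ∀ c < 1024, ∃ (n : ℕ) (w : ℕ → ℕ) (B : ℕ → ℕ → ℤ), ∀ f < 1024, ∀ g < 1024,
      K c f g = ∑ k ∈ range n, (w k : ℤ) * B k f * B k g) :
    (∀ c < 1024, ∀ f < 1024, ∀ g < 1024, K c g f = K c f g) ∧
    ∀ c < 1024, ∀ (ι : Type) [Fintype ι] (φ : ι → ℕ), (∀ i, φ i < 1024) →
      0 ≤ ∑ i, ∑ j, K c (φ i) (φ j) := by
  constructor
  · intro c hc f hf g hg
    obtain ⟨n, w, B, hB⟩ := h c hc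
    rw [hB g hg f hf, hB f hf g hg]
    exact sum_congr rfl fun k _ => by ring
  · intro c hc ι _ φ hφ
    obtain ⟨n, w, B, hB⟩ := h c hc
    have e : ∑ i, ∑ j, K c (φ i) (φ j) = ∑ k ∈ range n, (w k : ℤ) * (∑ i, B k (φ i)) ^ 2 := by
      rw [sum_congr rfl fun i _ => sum_congr rfl fun j _ => hB (φ i) (hφ i) (φ j) (hφ j)]
      rw [sum_congr rfl fun i _ => sum_comm, sum_comm]
      refine sum_congr rfl fun k _ => ?_
      rw [pow_two, sum_mul_sum, mul_sum]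
      refine sum_congr rfl fun i _ => ?_
      rw [mul_sum]
      exact sum_congr rfl fun j _ => by ring
    rw [e]
    exact sum_nonneg fun k _ => mul_nonneg (Int.natCast_nonneg _) (sq_nonneg _)

theorem t (hv : Pool.Agent.Y440.K.S_val) (hi : Pool.Agent.Y440.K.S_idx) :
    Pool.Agent.Y440.K.S_psd := by
  have h := gen Pool.Agent.Y440.K.dd Pool.Agent.Y440.K.qx Pool.Agent.Y440.K.dm
    Pool.Agent.Y440.K.ofs Pool.Agent.Y440.K.dw Pool.Agent.Y440.K.el Pool.Agent.Y440.K.cof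
    hv.1 hv.2.1 hi
  exact psd_of Pool.Agent.Y440.K.K0 h

end Pool.Agent.Y779.Q440
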